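import Pool.Agent.H28.EN.Targets

/-!
# The correlation with a wave is a test; the tests are bounded
-/

set_option autoImplicit false

open Finset Pool.Agent.H6.N4D Pool.Agent.H93.EB Pool.Agent.H28.EN

namespace Pool.Agent.H38.EN

/-- the real part of the exponential -/
theorem ee_re (x : ℝ) : (ee (-x)).re = Real.cos (2 * Real.pi * x) := by
  unfold ee
  rw [Complex.exp_ofReal_mul_I_re]
  rw [mul_neg, Real.cos_neg]

/-- the multiples of `q` in a window -/
theorem mult_card (q N n : ℕ) (hq : 1 ≤ q) :
    q * ((Ioc n (n + N)).filter (fun m => q ∣ m)).card ≤ N + q := by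
  have h1 : (Ioc 0 (n + N)).filter (fun m => q ∣ m) =
      (Ioc 0 n).filter (fun m => q ∣ m) ∪ (Ioc n (n + N)).filter (fun m => q ∣ m) := by
    rw [← filter_union]
    congr 1
    ext m
    simp only [mem_Ioc, mem_union]
    omega
  have h2 : Disjoint ((Ioc 0 n).filter (fun m => q ∣ m))
      ((Ioc n (n + N)).filter (fun m => q ∣ m)) := by
    rw [disjoint_left]
    intro m hm hm'
    rw [mem_filter, mem_Ioc] at hm hm'
    omega
  have h3 : (n + N) / q = n / q + ((Ioc n (n + N)).filter (fun m => q ∣ m)).card := by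
    rw [← Nat.Ioc_filter_dvd_card_eq_div (n + N) q, ← Nat.Ioc_filter_dvd_card_eq_div n q, h1,
      card_union_of_disjoint h2]
  set c := ((Ioc n (n + N)).filter (fun m => q ∣ m)).card with hc
  have h4 : q * ((n + N) / q) ≤ n + N := Nat.mul_div_le _ _
  have h5 : n < q * (n / q) + q := by
    have := Nat.lt_mul_div_succ n (by omega : 0 < q)
    rw [mul_add, mul_one] at this
    exact this
  rw [h3, mul_add] at h4
  omega

theorem pf_TST : T_TST := by
  intro lam q N n θ hN hq hqN hlam
  have hN0 : (0 : ℝ) < N := by exact_mod_cast hN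
  refine ⟨⟨fun m _ => by simp, by simp⟩, ?_, ?_, ?_⟩
  · intro φ
    set S : ℂ := ∑ m ∈ Ioc n (n + N), (lam m : ℂ) * (D q m : ℂ) * ee (-(θ * m)) with hS
    have h1 : ∑ m ∈ Ioc n (n + N), dq lam q m * Real.cos (2 * Real.pi * (θ * m + φ)) =
        (ee (-φ) * S).re := by
      rw [hS, mul_sum, Complex.re_sum]
      refine sum_congr rfl fun m _ => ?_
      have h2 : ee (-φ) * ((lam m : ℂ) * (D q m : ℂ) * ee (-(θ * m))) =
          ((D q m * lam m : ℝ) : ℂ) * ee (-(θ * m + φ)) := by
        have h3 : -(θ * m + φ) = -φ + -(θ * m) := by ring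
        rw [h3, ee_add]
        push_cast
        ring
      rw [h2, Complex.re_ofReal_mul, ee_re]
      rfl
    have h4 : zz lam q N n θ (fun _ => 1) = ‖S‖ / N := by
      unfold zz
      rw [norm_div, Complex.norm_natCast]
      congr 2
      refine sum_congr rfl fun m _ => ?_
      rw [mul_one]
    rw [h4]
    show |(∑ m ∈ Ioc n (n + N), dq lam q m * Real.cos (2 * Real.pi * (θ * m + φ))) / N| ≤ _
    rw [h1, abs_div, abs_of_pos hN0]
    refine div_le_div_of_nonneg_right ?_ hN0.le
    refine (Complex.abs_re_le_norm _).trans ?_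
    rw [norm_mul, norm_ee, one_mul]
  · intro φ
    unfold G
    rw [← add_div, ← sum_add_distrib]
    congr 1
    refine sum_congr rfl fun m _ => ?_
    unfold fq dq D
    ring
  · intro g hg
    unfold zz
    rw [norm_div, Complex.norm_natCast, div_le_iff₀ hN0]
    calc ‖∑ m ∈ Ioc n (n + N), (lam m : ℂ) * (D q m : ℂ) * ee (-(θ * m)) * g m‖ ≤
        ∑ m ∈ Ioc n (n + N), ‖(lam m : ℂ) * (D q m : ℂ) * ee (-(θ * m)) * g m‖ :=
          norm_sum_le _ _
      _ ≤ ∑ m ∈ Ioc n (n + N), ((if q ∣ m then (q : ℝ) else 0) + 1) := by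
          refine sum_le_sum fun m hm => ?_
          rw [norm_mul, norm_mul, norm_mul, norm_ee, mul_one, Complex.norm_real,
            Complex.norm_real, Real.norm_eq_abs, Real.norm_eq_abs]
          have h1 : |D q m| ≤ (if q ∣ m then (q : ℝ) else 0) + 1 := by
            unfold D
            have h2 : (0 : ℝ) ≤ if q ∣ m then (q : ℝ) else 0 := by
              split_ifs <;> positivity
            rw [abs_le]
            constructor <;> linarith
          have h3 : |lam m| * |D q m| ≤ (if q ∣ m then (q : ℝ) else 0) + 1 :=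
            (mul_le_of_le_one_left (abs_nonneg _) (hlam m)).trans h1
          exact (mul_le_of_le_one_right (by positivity) (hg.bd m hm)).trans h3
      _ = (q : ℝ) * ((Ioc n (n + N)).filter (fun m => q ∣ m)).card + N := by
          rw [sum_add_distrib, ← sum_filter, sum_const, nsmul_eq_mul, sum_const, nsmul_eq_mul,
            Nat.card_Ioc, Nat.add_sub_cancel_left]
          ring
      _ ≤ 3 * N := by
          have h1 := mult_card q N n hq
          have h2 : (q : ℝ) * ((Ioc n (n + N)).filter (fun m => q ∣ m)).card ≤ N + q := by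
            exact_mod_cast h1
          have h3 : (q : ℝ) ≤ N := by exact_mod_cast hqN
          linarith

end Pool.Agent.H38.EN
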