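import Pool.Agent.H93.EN.Targets4
import Pool.Agent.H93.BL.Final

/-! PRO: reaching is an open condition on phase points. -/

set_option autoImplicit false

namespace Pool.Agent.H38.EN

open MeasureTheory Set Metric Filter Topology Pool.Agent.H93.EN
open Pool.Agent.H93.BL hiding T_B1 T_B2 T_B3 T_SB T_SC

variable {ι : Type}

theorem cont_pos (P : Polygon ι) (j : ι) : Continuous fun x : ℝ × ℝ => P.pos (j, x.1, x.2) := by
  unfold Polygon.pos
  fun_prop

theorem cont_dir (P : Polygon ι) (j : ι) : Continuous fun x : ℝ × ℝ => P.dir (j, x.1, x.2) := by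
  unfold Polygon.dir
  fun_prop

theorem phase_ev (P : Polygon ι) (z : ι × ℝ × ℝ) (hz : P.Phase z) :
    ∀ᶠ x : ℝ × ℝ in 𝓝 (z.2.1, z.2.2), P.Phase (z.1, x.1, x.2) := by
  have h1 : IsOpen {x : ℝ × ℝ | P.Phase (z.1, x.1, x.2)} := by
    unfold Polygon.Phase
    simp only
    refine (isOpen_lt continuous_const continuous_fst).inter
      ((isOpen_lt continuous_fst continuous_const).inter
        ((isOpen_lt continuous_const continuous_snd).inter
          (isOpen_lt continuous_snd continuous_const)))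
  exact h1.mem_nhds hz

theorem sg_ev [Finite ι] (P : Polygon ι) (U : Set ℂ) (hU : IsOpen U) (hUΩ : U ⊆ P.Ω)
    (z : ι × ℝ × ℝ) (hz : P.Phase z) (h : Sg P U (P.pos z) (P.dir z)) :
    ∀ᶠ x : ℝ × ℝ in 𝓝 (z.2.1, z.2.2), Sg P U (P.pos (z.1, x.1, x.2)) (P.dir (z.1, x.1, x.2)) := by
  obtain ⟨r, hr0, hrU, hr⟩ := h
  have hmem := P.pos_mem hz
  have hr1 : 0 < r := by
    refine lt_of_le_of_ne hr0 fun h0 => ?_
    rw [← h0] at hrU
    simp only [Complex.ofReal_zero, zero_mul, add_zero] at hrU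
    have h1 : P.pos z ∈ frontier P.Ω := by
      rw [P.frontier_eq]
      exact mem_iUnion.2 ⟨z.1, openSegment_subset_segment _ _ _ hmem⟩
    rw [P.isOpen.frontier_eq] at h1
    exact h1.2 (hUΩ hrU)
  obtain ⟨ρ, hρ0, hρ, -⟩ := Pool.Agent.H93.BL.Final.pG1 ι P z.1 (P.pos z) hmem
  -- the compact segment
  have hK : IsCompact ((fun t : ℝ => P.pos z + (t : ℂ) * P.dir z) '' Icc (ρ / 2) r) := by
    refine isCompact_Icc.image ?_
    fun_prop
  have hKΩ : (fun t : ℝ => P.pos z + (t : ℂ) * P.dir z) '' Icc (ρ / 2) r ⊆ P.Ω := by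
    rintro _ ⟨t, ht, rfl⟩
    exact hr t ⟨by linarith [ht.1], ht.2⟩
  obtain ⟨δ, hδ0, hδ⟩ := hK.exists_thickening_subset_open P.isOpen hKΩ
  obtain ⟨δ', hδ'0, hδ'⟩ := Metric.isOpen_iff.1 hU _ hrU
  have c1 : ∀ᶠ x : ℝ × ℝ in 𝓝 (z.2.1, z.2.2), dist (P.pos (z.1, x.1, x.2)) (P.pos z) <
      min (ρ / 2) (min (δ / 2) (δ' / 2)) := by
    have h1 := (cont_pos P z.1).tendsto (z.2.1, z.2.2)
    exact (Metric.tendsto_nhds.1 h1) _ (by positivity)
  have c2 : ∀ᶠ x : ℝ × ℝ in 𝓝 (z.2.1, z.2.2), dist (P.dir (z.1, x.1, x.2)) (P.dir z) <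
      min (δ / 2) (δ' / 2) / r := by
    have h1 := (cont_dir P z.1).tendsto (z.2.1, z.2.2)
    exact (Metric.tendsto_nhds.1 h1) _ (by positivity)
  filter_upwards [c1, c2, phase_ev P z hz] with x h1 h2 h3
  have h1a : dist (P.pos (z.1, x.1, x.2)) (P.pos z) < ρ / 2 := lt_of_lt_of_le h1 (min_le_left _ _)
  have h1b : dist (P.pos (z.1, x.1, x.2)) (P.pos z) < min (δ / 2) (δ' / 2) :=
    lt_of_lt_of_le h1 (min_le_right _ _)
  have key : ∀ t : ℝ, 0 ≤ t → t ≤ r →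
      dist (P.pos (z.1, x.1, x.2) + (t : ℂ) * P.dir (z.1, x.1, x.2))
        (P.pos z + (t : ℂ) * P.dir z) < 2 * min (δ / 2) (δ' / 2) := by
    intro t ht0 htr
    have h4 : t * dist (P.dir (z.1, x.1, x.2)) (P.dir z) ≤ min (δ / 2) (δ' / 2) := by
      rw [lt_div_iff₀ hr1] at h2
      calc t * dist (P.dir (z.1, x.1, x.2)) (P.dir z) ≤
          r * dist (P.dir (z.1, x.1, x.2)) (P.dir z) :=
            mul_le_mul_of_nonneg_right htr dist_nonneg
        _ ≤ _ := by rw [mul_comm]; exact h2.le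
    calc dist (P.pos (z.1, x.1, x.2) + (t : ℂ) * P.dir (z.1, x.1, x.2))
          (P.pos z + (t : ℂ) * P.dir z) ≤ dist (P.pos (z.1, x.1, x.2)) (P.pos z) +
          dist ((t : ℂ) * P.dir (z.1, x.1, x.2)) ((t : ℂ) * P.dir z) := dist_add_add_le _ _ _ _
      _ = dist (P.pos (z.1, x.1, x.2)) (P.pos z) +
          t * dist (P.dir (z.1, x.1, x.2)) (P.dir z) := by
            congr 1
            rw [dist_eq_norm, dist_eq_norm, ← mul_sub, norm_mul, Complex.norm_real,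
              Real.norm_of_nonneg ht0]
      _ < _ := by linarith
  refine ⟨r, hr0, ?_, fun t ht => ?_⟩
  · refine hδ' ?_
    rw [Metric.mem_ball]
    refine lt_of_lt_of_le (key r hr0 le_rfl) ?_
    have := min_le_right (δ / 2) (δ' / 2)
    linarith
  · rcases lt_or_ge t (ρ / 2) with h5 | h5
    · refine hρ _ ?_ ?_
      · calc dist (P.pos (z.1, x.1, x.2) + (t : ℂ) * P.dir (z.1, x.1, x.2)) (P.pos z) ≤
            dist (P.pos (z.1, x.1, x.2) + (t : ℂ) * P.dir (z.1, x.1, x.2))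
              (P.pos (z.1, x.1, x.2)) + dist (P.pos (z.1, x.1, x.2)) (P.pos z) :=
              dist_triangle _ _ _
          _ = t + dist (P.pos (z.1, x.1, x.2)) (P.pos z) := by
              congr 1
              rw [dist_eq_norm, add_sub_cancel_left, norm_mul, P.norm_dir, Complex.norm_real,
                Real.norm_of_nonneg ht.1.le, mul_one]
          _ < ρ := by linarith
      · have e1 : P.pos (z.1, x.1, x.2) + (t : ℂ) * P.dir (z.1, x.1, x.2) - P.pos z =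
            (P.pos (z.1, x.1, x.2) - P.pos z) + (t : ℂ) * P.dir (z.1, x.1, x.2) := by ring
        have e2 : ip (P.pos (z.1, x.1, x.2) - P.pos z) (P.n z.1) = 0 := P.ip_line _ _ _
        rw [e1, ip_add_left, e2, ip_smul_left, zero_add]
        refine mul_pos ht.1 ?_
        have e3 := P.ip_dir_n (z.1, x.1, x.2)
        simp only at e3
        rw [e3]
        exact P.cos_pos_of_phase h3
    · refine hδ ?_
      rw [Metric.mem_thickening_iff]
      refine ⟨P.pos z + (t : ℂ) * P.dir z, ⟨t, ⟨h5, ht.2⟩, rfl⟩, ?_⟩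
      refine lt_of_lt_of_le (key t ht.1.le ht.2) ?_
      have := min_le_left (δ / 2) (δ' / 2)
      linarith

theorem eta_of_ev (s₀ φ₀ : ℝ) (p : ℝ → ℝ → Prop) (h : ∀ᶠ x : ℝ × ℝ in 𝓝 (s₀, φ₀), p x.1 x.2) :
    ∃ η > (0 : ℝ), ∀ s φ : ℝ, |s - s₀| < η → |φ - φ₀| < η → p s φ := by
  obtain ⟨η, hη, h1⟩ := Metric.eventually_nhds_iff.1 h
  refine ⟨η, hη, fun s φ hs hφ => h1 (y := (s, φ)) ?_⟩
  rw [Prod.dist_eq]
  exact max_lt hs hφ

theorem pro (h1 : Pool.Agent.H93.EN.T_SC) : T_PRO := by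
  intro ι _ P E U hU hUΩ z hz hPR
  obtain ⟨z', hzz', hend⟩ := hPR
  induction hzz' using Relation.ReflTransGen.head_induction_on with
  | refl =>
    rcases hend with hE | hS
    · obtain ⟨η, hη, h2⟩ := eta_of_ev z'.2.1 z'.2.2 (fun s φ => P.Phase (z'.1, s, φ))
        (phase_ev P z' hz)
      exact ⟨η, hη, fun s φ hs hφ => ⟨h2 s φ hs hφ, (z'.1, s, φ), Relation.ReflTransGen.refl,
        Or.inl hE⟩⟩
    · obtain ⟨η, hη, h2⟩ := eta_of_ev z'.2.1 z'.2.2 (fun s φ => P.Phase (z'.1, s, φ) ∧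
        Sg P U (P.pos (z'.1, s, φ)) (P.dir (z'.1, s, φ)))
        ((phase_ev P z' hz).and (sg_ev P U hU hUΩ z' hz hS))
      exact ⟨η, hη, fun s φ hs hφ => ⟨(h2 s φ hs hφ).1, (z'.1, s, φ), Relation.ReflTransGen.refl,
        Or.inr (h2 s φ hs hφ).2⟩⟩
  | @head a c hstep _ ih =>
    obtain ⟨η, hη, h2⟩ := ih hstep.2.1
    obtain ⟨η', hη', h3⟩ := h1 ι P a c hstep η hη
    refine ⟨η', hη', fun s φ hs hφ => ?_⟩
    obtain ⟨z₁, hz1, hz2, hz3, hz4⟩ := h3 s φ hs hφ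
    obtain ⟨h4, z₂, h5, h6⟩ := h2 z₁.2.1 z₁.2.2 hz3 hz4
    have e : ((c.1, z₁.2.1, z₁.2.2) : ι × ℝ × ℝ) = z₁ := by
      rw [← hz2]
    rw [e] at h4 h5
    exact ⟨hz1.1, z₂, Relation.ReflTransGen.head hz1 h5, h6⟩

end Pool.Agent.H38.EN
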